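import Pool.Agent.H577R3.RM.Stmts
import Pool.Agent.H54R3.RigD

set_option autoImplicit false
set_option linter.style.haveILetI false
set_option linter.unusedSimpArgs false

/-! Random metabelian groups: task GRP (helper191). -/

namespace Pool.Agent.H191R3.RM

open Pool.Agent.Helper777.Prof Pool.Agent.H577R3 Pool.Agent.H577R3.RM
open scoped commutatorElement

section basics

variable {n m : ℕ}

theorem abv_mul (a b : FG n) : abv (a * b) = abv a + abv b := by
  unfold abv; rw [map_mul, toAdd_mul]

theorem abv_inv (a : FG n) : abv a⁻¹ = - abv a := by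
  unfold abv; rw [map_inv, toAdd_inv]

theorem abF_of (i : Fin n) : abF n (FreeGroup.of i) = zb i := by
  unfold abF; simp

theorem abv_prod (x : Fin m → FG n) (a : Fin m → ℤ) :
    abv ((List.ofFn fun j => x j ^ a j).prod) = ∑ j, a j • abv (x j) := by
  unfold abv
  rw [map_list_prod, List.map_ofFn, List.prod_ofFn, toAdd_prod]
  refine Finset.sum_congr rfl fun j _ => ?_
  simp only [Function.comp_apply, map_zpow, toAdd_zpow]

theorem exists_abv (u : Fin n → ℤ) : ∃ g : FG n, abv g = u := by
  refine ⟨(List.ofFn fun i => FreeGroup.of i ^ u i).prod, ?_⟩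
  rw [abv_prod]
  funext l
  have h : ∀ i, abv (FreeGroup.of i : FG n) = Pi.single i 1 := by
    intro i; unfold abv; rw [abF_of]; rfl
  simp [h, Finset.sum_apply, Pi.single_apply]

/-- the homomorphism from the free abelian group to the abelianisation -/
noncomputable def sab (n : ℕ) : Zm n →* Abelianization (FG n) where
  toFun u := ∏ l, (Abelianization.of (FreeGroup.of l : FG n)) ^ (Multiplicative.toAdd u l)
  map_one' := by simp
  map_mul' u v := by
    rw [← Finset.prod_mul_distrib]
    refine Finset.prod_congr rfl (fun l _ => ?_)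
    rw [toAdd_mul, Pi.add_apply, zpow_add]

theorem sab_abF : (sab n).comp (abF n) = Abelianization.of := by
  refine FreeGroup.ext_hom _ _ fun i => ?_
  rw [MonoidHom.comp_apply, abF_of]
  change ∏ l, (Abelianization.of (FreeGroup.of l : FG n)) ^ ((Pi.single i 1 : Fin n → ℤ) l) = _
  rw [Finset.prod_eq_single i]
  · simp
  · intro l _ hl
    simp [Pi.single_apply, hl]
  · intro h; exact absurd (Finset.mem_univ _) h

theorem mem_derived {g : FG n} (h : abv g = 0) : g ∈ derivedSeries (FG n) 1 := by
  have h1 : abF n g = 1 := by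
    apply Multiplicative.toAdd.injective
    exact h
  have h2 : Abelianization.of g = 1 := by
    rw [← sab_abF, MonoidHom.comp_apply, h1, map_one]
  rw [derivedSeries_one, ← Abelianization.ker_of]
  exact h2

/-- the class of the exponent vector modulo a submodule that contains those of the relators -/
noncomputable def al (r : Fin m → FG n) (U : Submodule ℤ (Fin n → ℤ))
    (hU : ∀ j, abv (r j) ∈ U) : MG r →* Multiplicative ((Fin n → ℤ) ⧸ U) :=
  QuotientGroup.lift (relN r)
    ((AddMonoidHom.toMultiplicative U.mkQ.toAddMonoidHom).comp (abF n)) (by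
      have h : relN r ≤ ((AddMonoidHom.toMultiplicative U.mkQ.toAddMonoidHom).comp
          (abF n)).ker := by
        unfold relN
        refine sup_le ?_ ?_
        · apply Subgroup.normalClosure_le_normal
          rintro _ ⟨j, rfl⟩
          change _ = _
          apply Multiplicative.toAdd.injective
          change U.mkQ (abv (r j)) = 0
          rw [Submodule.mkQ_apply, Submodule.Quotient.mk_eq_zero]
          exact hU j
        · refine (derivedSeries_antitone (G := FG n) (by norm_num : 1 ≤ 2)).trans ?_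
          rw [derivedSeries_one]
          exact Abelianization.commutator_subset_ker _
      exact fun x hx => h hx)

theorem al_mk (r : Fin m → FG n) (U : Submodule ℤ (Fin n → ℤ)) (hU : ∀ j, abv (r j) ∈ U)
    (g : FG n) : Multiplicative.toAdd (al r U hU (QuotientGroup.mk g)) = U.mkQ (abv g) := rfl

theorem rel_mem (r : Fin m → FG n) (a : Fin m → ℤ) :
    (List.ofFn fun j => r j ^ a j).prod ∈ relN r := by
  apply Subgroup.list_prod_mem
  intro x hx
  rw [List.mem_ofFn] at hx
  obtain ⟨j, rfl⟩ := hx
  apply Subgroup.zpow_mem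
  unfold relN
  exact Subgroup.mem_sup_left (Subgroup.subset_normalClosure ⟨j, rfl⟩)

/-- change the representative so that its exponent vector changes by an element of the span -/
theorem exists_rep (r : Fin m → FG n) (g : FG n) (u : Fin n → ℤ)
    (h : abv g - u ∈ Submodule.span ℤ (Set.range fun j => abv (r j))) :
    ∃ g' : FG n, abv g' = u ∧ (QuotientGroup.mk g' : MG r) = QuotientGroup.mk g := by
  obtain ⟨a, ha⟩ := (Submodule.mem_span_range_iff_exists_fun ℤ).1 h
  refine ⟨g * ((List.ofFn fun j => r j ^ a j).prod)⁻¹, ?_, ?_⟩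
  · rw [abv_mul, abv_inv, abv_prod, ha]
    abel
  · rw [QuotientGroup.mk_mul, QuotientGroup.mk_inv]
    have h1 : (QuotientGroup.mk ((List.ofFn fun j => r j ^ a j).prod) : MG r) = 1 :=
      (QuotientGroup.eq_one_iff _).2 (rel_mem r a)
    rw [h1, inv_one, mul_one]

theorem comm_of_derived (r : Fin m → FG n) {a b : FG n} (ha : a ∈ derivedSeries (FG n) 1)
    (hb : b ∈ derivedSeries (FG n) 1) :
    (QuotientGroup.mk a : MG r) * QuotientGroup.mk b = QuotientGroup.mk b * QuotientGroup.mk a := by
  have h : ⁅a, b⁆ ∈ relN r := by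
    unfold relN
    apply Subgroup.mem_sup_right
    rw [show (2 : ℕ) = 1 + 1 from rfl, derivedSeries_succ]
    exact Subgroup.commutator_mem_commutator ha hb
  have h1 : (QuotientGroup.mk ⁅a, b⁆ : MG r) = 1 := (QuotientGroup.eq_one_iff _).2 h
  have h2 : (QuotientGroup.mk ⁅a, b⁆ : MG r) =
      ⁅(QuotientGroup.mk a : MG r), (QuotientGroup.mk b : MG r)⁆ := rfl
  rw [h2] at h1
  exact commutatorElement_eq_one_iff_mul_comm.1 h1

end basics

theorem taskGRP (h1 : TaskTF) (h2 : TaskNONAB) : TaskGRP := by
  classical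
  intro n m r C hmn hC hR
  set V : Submodule ℤ (Fin n → ℤ) := Submodule.span ℤ (Set.range fun j => abv (r j)) with hV
  have hVj : ∀ j, abv (r j) ∈ V := fun j => Submodule.subset_span ⟨j, rfl⟩
  obtain ⟨hcard, hli⟩ := hC
  let e : Fin C.card ≃ {c // c ∈ C} := C.equivFin.symm
  let β : (Fin C.card → ℤ) →ₗ[ℤ] (Fin n → ℤ) :=
    Fintype.linearCombination ℤ (fun i => (Pi.single (e i).1 1 : Fin n → ℤ))
  have hβ : ∀ d, β d = ∑ i, d i • (Pi.single (e i).1 1 : Fin n → ℤ) := fun d => rfl
  let βA : (Fin C.card → ℤ) →ₗ[ℤ] ((Fin n → ℤ) ⧸ V) := V.mkQ ∘ₗ β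
  have hβinj : Function.Injective βA := by
    rw [injective_iff_map_eq_zero]
    intro d hd
    have h3 : β d ∈ V := by
      change V.mkQ (β d) = 0 at hd
      rwa [Submodule.mkQ_apply, Submodule.Quotient.mk_eq_zero] at hd
    obtain ⟨a, ha⟩ := (Submodule.mem_span_range_iff_exists_fun ℤ).1 h3
    have h4 := (Fintype.linearIndependent_iff.1 hli) (Sum.elim a (fun c => - d (e.symm c))) (by
      rw [Fintype.sum_sum_type]
      simp only [Sum.elim_inl, Sum.elim_inr]
      rw [ha, hβ, ← Equiv.sum_comp e (fun c : {c // c ∈ C} =>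
        (-d (e.symm c)) • (Pi.single c.1 1 : Fin n → ℤ)), ← Finset.sum_add_distrib]
      refine Finset.sum_eq_zero fun i _ => ?_
      rw [Equiv.symm_apply_apply, neg_smul, add_neg_cancel])
    funext i
    have h5 := h4 (Sum.inr (e i))
    simpa using h5
  let α := al r V hVj
  -- the subgroup
  let G0 : Subgroup (MG r) :=
    { carrier := {x | Multiplicative.toAdd (α x) ∈ LinearMap.range βA}
      mul_mem' := fun {a b} ha hb => by
        change Multiplicative.toAdd (α (a * b)) ∈ LinearMap.range βA
        rw [map_mul, toAdd_mul]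
        exact Submodule.add_mem _ ha hb
      one_mem' := by
        change Multiplicative.toAdd (α 1) ∈ LinearMap.range βA
        rw [map_one, toAdd_one]
        exact Submodule.zero_mem _
      inv_mem' := fun {a} ha => by
        change Multiplicative.toAdd (α a⁻¹) ∈ LinearMap.range βA
        rw [map_inv, toAdd_inv]
        exact Submodule.neg_mem _ ha }
  let E := LinearEquiv.ofInjective βA hβinj
  let π : G0 →* Zm C.card :=
    { toFun := fun x => Multiplicative.ofAdd (E.symm ⟨Multiplicative.toAdd (α x.1), x.2⟩)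
      map_one' := by
        have : (⟨Multiplicative.toAdd (α (1 : G0).1), (1 : G0).2⟩ : LinearMap.range βA) = 0 := by
          apply Subtype.ext
          change Multiplicative.toAdd (α 1) = 0
          rw [map_one, toAdd_one]
        rw [this, map_zero, ofAdd_zero]
      map_mul' := fun x y => by
        have : (⟨Multiplicative.toAdd (α (x * y).1), (x * y).2⟩ : LinearMap.range βA) =
            ⟨Multiplicative.toAdd (α x.1), x.2⟩ + ⟨Multiplicative.toAdd (α y.1), y.2⟩ := by
          apply Subtype.ext
          change Multiplicative.toAdd (α (x.1 * y.1)) = _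
          rw [map_mul, toAdd_mul]
          rfl
        rw [this, map_add, ofAdd_add] }
  have hπ : ∀ x : G0, βA (Multiplicative.toAdd (π x)) = Multiplicative.toAdd (α x.1) := by
    intro x
    have h3 : E (E.symm ⟨Multiplicative.toAdd (α x.1), x.2⟩) = ⟨Multiplicative.toAdd (α x.1), x.2⟩ :=
      LinearEquiv.apply_symm_apply _ _
    have h4 := congrArg Subtype.val h3
    exact h4
  -- representatives
  have hrep : ∀ x : G0, ∃ g : FG n, abv g = β (Multiplicative.toAdd (π x)) ∧
      (QuotientGroup.mk g : MG r) = x.1 := by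
    intro x
    obtain ⟨g, hg⟩ := QuotientGroup.mk_surjective x.1
    obtain ⟨g', hg1, hg2⟩ := exists_rep r g (β (Multiplicative.toAdd (π x))) (by
      rw [← hV, ← Submodule.Quotient.mk_eq_zero, ← Submodule.mkQ_apply, map_sub, sub_eq_zero]
      have h3 := hπ x
      rw [← hg] at h3
      exact h3.symm)
    exact ⟨g', hg1, hg2.trans hg⟩
  have hker : ∀ x : G0, π x = 1 → ∃ g : FG n, g ∈ derivedSeries (FG n) 1 ∧
      (QuotientGroup.mk g : MG r) = x.1 := by
    intro x hx
    obtain ⟨g, hg1, hg2⟩ := hrep x
    refine ⟨g, mem_derived ?_, hg2⟩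
    rw [hg1, hx, toAdd_one, map_zero]
  have hcommG0 : commutator (MG r) ≤ G0 := by
    have h3 : commutator (MG r) ≤ α.ker := Abelianization.commutator_subset_ker _
    intro x hx
    have h4 : α x = 1 := h3 hx
    change Multiplicative.toAdd (α x) ∈ LinearMap.range βA
    rw [h4, toAdd_one]
    exact Submodule.zero_mem _
  -- finite index
  have hfi : G0.FiniteIndex := by
    set W : Submodule ℤ (Fin n → ℤ) := Submodule.span ℤ (Set.range
      (Sum.elim (fun j => abv (r j)) (fun c : {c // c ∈ C} => (Pi.single c.1 1 : Fin n → ℤ))))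
      with hW
    have hWj : ∀ j, abv (r j) ∈ W := fun j => Submodule.subset_span ⟨Sum.inl j, rfl⟩
    have hfr : Module.finrank ℤ W = Module.finrank ℤ (Fin n → ℤ) := by
      rw [hW, finrank_span_eq_card hli]
      simp [hcard]
    haveI : Finite ((Fin n → ℤ) ⧸ W) := Submodule.finiteQuotientOfFreeOfRankEq W hfr
    haveI : Finite (Multiplicative ((Fin n → ℤ) ⧸ W)) :=
      inferInstanceAs (Finite ((Fin n → ℤ) ⧸ W))
    haveI : (al r W hWj).ker.FiniteIndex := inferInstance
    refine Subgroup.finiteIndex_of_le (H := (al r W hWj).ker) ?_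
    intro x hx
    obtain ⟨g, rfl⟩ := QuotientGroup.mk_surjective x
    have h3 : abv g ∈ W := by
      have h4 : Multiplicative.toAdd (al r W hWj (QuotientGroup.mk g)) = 0 := by
        rw [show al r W hWj (QuotientGroup.mk g) = 1 from hx, toAdd_one]
      rwa [al_mk, Submodule.mkQ_apply, Submodule.Quotient.mk_eq_zero] at h4
    obtain ⟨a, ha⟩ := (Submodule.mem_span_range_iff_exists_fun ℤ).1 h3
    rw [Fintype.sum_sum_type] at ha
    simp only [Sum.elim_inl, Sum.elim_inr] at ha
    change Multiplicative.toAdd (α (QuotientGroup.mk g)) ∈ LinearMap.range βA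
    refine ⟨fun i => a (Sum.inr (e i)), ?_⟩
    change V.mkQ (β _) = V.mkQ (abv g)
    rw [← sub_eq_zero, ← map_sub, Submodule.mkQ_apply, Submodule.Quotient.mk_eq_zero, ← ha, hβ]
    rw [← Equiv.sum_comp e (fun c : {c // c ∈ C} =>
        a (Sum.inr c) • (Pi.single c.1 1 : Fin n → ℤ))]
    rw [sub_add_cancel_right]
    refine Submodule.neg_mem _ (Submodule.sum_mem _ fun j _ => Submodule.smul_mem _ _ (hVj j))
  have hsurj : Function.Surjective π := by
    intro d
    obtain ⟨g, hg⟩ := exists_abv (β (Multiplicative.toAdd d))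
    have hmem : (QuotientGroup.mk g : MG r) ∈ G0 := by
      change Multiplicative.toAdd (α (QuotientGroup.mk g)) ∈ LinearMap.range βA
      refine ⟨Multiplicative.toAdd d, ?_⟩
      change V.mkQ (β _) = V.mkQ (abv g)
      rw [hg]
    refine ⟨⟨_, hmem⟩, ?_⟩
    apply Multiplicative.toAdd.injective
    apply hβinj
    rw [hπ]
    change V.mkQ (abv g) = V.mkQ (β _)
    rw [hg]
  have hβsupp : ∀ (d : Fin C.card → ℤ) (l : Fin n), l ∉ C → β d l = 0 := by
    intro d l hl
    rw [hβ, Finset.sum_apply]
    refine Finset.sum_eq_zero fun i _ => ?_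
    have : l ≠ (e i).1 := fun h => hl (h ▸ (e i).2)
    simp [Pi.single_apply, this]
  have hβ0 : Function.Injective β := by
    intro a b h
    apply hβinj
    change V.mkQ (β a) = V.mkQ (β b)
    rw [h]
  haveI := hfi
  have hFG : Group.FG G0 := Subgroup.fg_of_index_ne_zero G0
  obtain ⟨k', hMD⟩ := Pool.Agent.H54R3.Rig.exists_md π hsurj (by
    intro a b ha hb
    obtain ⟨a', ha1, ha2⟩ := hker a ha
    obtain ⟨b', hb1, hb2⟩ := hker b hb
    apply Subtype.ext
    change a.1 * b.1 = b.1 * a.1
    rw [← ha2, ← hb2]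
    exact comm_of_derived r ha1 hb1) hFG (by
    intro N g c a ha ha1 hg hc hprod
    obtain ⟨a', ha2, ha3⟩ := hker a ha
    choose g' hg1 hg2 using fun s => hrep (g s)
    apply ha1
    have h3 := h1 n m r C ⟨hcard, hli⟩ hR N g' c a' ha2 (fun s l hl => by
      rw [hg1]; exact hβsupp _ l hl) (fun s s' hss h => by
      rw [hg1, hg1] at h
      exact hg s s' hss (Multiplicative.toAdd.injective (hβ0 h))) hc (by
      rw [← QuotientGroup.eq_one_iff]
      have h4 := congrArg Subtype.val hprod
      rw [Subgroup.val_list_prod, List.map_ofFn] at h4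
      rw [show ((QuotientGroup.mk ((List.ofFn fun s => g' s * a' ^ c s * (g' s)⁻¹).prod)) : MG r)
        = (QuotientGroup.mk' (relN r)) ((List.ofFn fun s => g' s * a' ^ c s * (g' s)⁻¹).prod)
        from rfl, map_list_prod, List.map_ofFn]
      refine Eq.trans ?_ h4
      congr 2
      funext s
      simp only [Function.comp_apply, map_mul, map_zpow, map_inv, QuotientGroup.mk'_apply,
        Subgroup.coe_mul, Subgroup.coe_zpow, Subgroup.coe_inv]
      rw [hg2, ha3])
    apply Subtype.ext
    rw [← ha3]
    exact (QuotientGroup.eq_one_iff _).2 h3)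
  refine ⟨G0, C.card, k', π, hcommG0, hfi, by omega, hsurj, hMD, ?_⟩
  have hli' : LinearIndependent ℤ (fun j => abv (r j)) := by
    have := hli.comp Sum.inl Sum.inl_injective
    exact this
  obtain ⟨x, y, hxy⟩ := h2 n m r hmn hli'
  have hc : ⁅x, y⁆ ∈ commutator (MG r) :=
    Subgroup.commutator_mem_commutator (Subgroup.mem_top x) (Subgroup.mem_top y)
  refine ⟨⟨⁅x, y⁆, hcommG0 hc⟩, ?_, ?_⟩
  · apply Multiplicative.toAdd.injective
    apply hβinj
    rw [hπ, toAdd_one, map_zero]
    have h3 : commutator (MG r) ≤ α.ker := Abelianization.commutator_subset_ker _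
    have h4 : α ⁅x, y⁆ = 1 := h3 hc
    change Multiplicative.toAdd (α ⁅x, y⁆) = 0
    rw [h4, toAdd_one]
  · intro h
    have h3 : ⁅x, y⁆ = 1 := congrArg Subtype.val h
    exact hxy (commutatorElement_eq_one_iff_mul_comm.1 h3)

end Pool.Agent.H191R3.RM
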